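import Pool.Agent.Q166.TB.Plane

/-!
# MP_1096cc_an: the three-balls inequality with the Hadamard exponent

`supNorm u s = sup_{‖x‖ < s} |u x|`, `ClassH n` is the class of complex-valued harmonic functions
on the unit ball of `ℝⁿ` with `supNorm u 1 = 1` and `HasConstant n ρ r` says that there is a finite
`K` with `‖u‖_r ≤ K ‖u‖_ρ ^ (log r / log ρ)` for all `u` in the class.

In the plane a finite constant exists for all `0 < ρ < r < 1`; in every dimension `n ≥ 3` there is
none, for any `0 < ρ < r < 1`.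
-/

namespace Pool.Agent.Results.MP_1096cc_an.Dichotomy

open Pool.Agent.Q166.TB

theorem result :
    (∀ ρ r : ℝ, 0 < ρ → ρ < r → r < 1 → HasConstant 2 ρ r) ∧
    (∀ n : ℕ, 3 ≤ n → ∀ ρ r : ℝ, 0 < ρ → ρ < r → r < 1 → ¬ HasConstant n ρ r) :=
  ⟨hasConstant_two, not_hasConstant⟩

end Pool.Agent.Results.MP_1096cc_an.Dichotomy
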